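import Pool.Agent.H39.EAG.Targets

set_option autoImplicit false

open Finset Filter Topology Pool.Agent.H39.EAG

namespace Pool.Agent.H33.EAG

theorem alp_cnt {I : Type} [Fintype I] [DecidableEq I] (P : Finset I) :
    (univ.filter fun f : I → Bool => ∀ i ∈ P, f i = false).card * 2 ^ P.card =
      2 ^ Fintype.card I := by
  have h : (univ.filter fun f : I → Bool => ∀ i ∈ P, f i = false) =
      Fintype.piFinset (fun i => if i ∈ P then ({false} : Finset Bool) else univ) := by
    ext f
    simp only [mem_filter, mem_univ, true_and, Fintype.mem_piFinset]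
    refine forall_congr' fun i => ?_
    by_cases hi : i ∈ P
    · simp [hi]
    · simp [hi]
  rw [h, Fintype.card_piFinset]
  have h1 : ∀ i : I, (if i ∈ P then ({false} : Finset Bool) else univ).card =
      if i ∈ P then 1 else 2 := by
    intro i
    by_cases hi : i ∈ P
    · simp [hi]
    · simp [hi]
  simp_rw [h1]
  have h2 : 2 ^ P.card = ∏ i : I, (if i ∈ P then 2 else 1) := by
    rw [Finset.prod_ite, Finset.prod_const_one, mul_one, Finset.prod_const]
    congr 2
    ext i
    simp
  rw [h2, ← prod_mul_distrib]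
  have h3 : ∀ i : I, ((if i ∈ P then 1 else 2) * (if i ∈ P then 2 else 1) : ℕ) = 2 := by
    intro i
    split_ifs <;> rfl
  simp_rw [h3]
  rw [Finset.prod_const, Finset.card_univ]

theorem pf_ALP : T_ALP := by
  intro n l hn
  classical
  set k := 2 * l + 1 with hk
  set N := Fintype.card (Sym2 (Fin n)) with hN
  let Pr : Finset (Fin n) → Finset (Sym2 (Fin n)) := fun I => I.offDiag.image Sym2.mk.uncurry
  have hPr : ∀ I : Finset (Fin n), I.card = k → (Pr I).card = k * l := by
    intro I hI
    have h1 : (Pr I).card = I.card.choose 2 := Sym2.card_image_offDiag I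
    rw [h1, hI, Nat.choose_two_right]
    have : k * (k - 1) = k * l * 2 := by
      rw [hk]
      simp only [Nat.add_sub_cancel]
      ring
    rw [this]
    simp
  have h1 : ∀ I ∈ powersetCard k (univ : Finset (Fin n)),
      ((univ.filter fun ω : Om n => ∀ s ∈ Pr I, ω s = false).card : ℝ) = 2 ^ N / 2 ^ (k * l) := by
    intro I hI
    have h2 := alp_cnt (Pr I)
    rw [hPr I (mem_powersetCard.1 hI).2] at h2
    rw [eq_div_iff (by positivity)]
    exact_mod_cast h2
  have h2 : cnt (fun ω : Om n => ∃ I : Finset (Fin n), I.card = k ∧ Ind (gr ω) I) ≤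
      ∑ I ∈ powersetCard k (univ : Finset (Fin n)),
        ((univ.filter fun ω : Om n => ∀ s ∈ Pr I, ω s = false).card : ℝ) := by
    unfold cnt
    have hb : (((powersetCard k (univ : Finset (Fin n))).biUnion
        (fun I => univ.filter fun ω : Om n => ∀ s ∈ Pr I, ω s = false)).card : ℝ) ≤
        ∑ I ∈ powersetCard k (univ : Finset (Fin n)),
          ((univ.filter fun ω : Om n => ∀ s ∈ Pr I, ω s = false).card : ℝ) := by
      have h4 := card_biUnion_le (s := powersetCard k (univ : Finset (Fin n)))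
        (t := fun I => univ.filter fun ω : Om n => ∀ s ∈ Pr I, ω s = false)
      exact_mod_cast h4
    refine le_trans (Nat.cast_le.2 (card_le_card ?_)) hb
    · intro ω hω
      simp only [mem_filter, mem_univ, true_and] at hω
      obtain ⟨I, hI, hind⟩ := hω
      rw [mem_biUnion]
      refine ⟨I, mem_powersetCard.2 ⟨subset_univ _, hI⟩, ?_⟩
      simp only [mem_filter, mem_univ, true_and]
      intro s hs
      obtain ⟨⟨u, v⟩, huv, rfl⟩ := mem_image.1 hs
      rw [mem_offDiag] at huv
      have h4 := hind u huv.1 v huv.2.1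
      by_contra h5
      have h6 : ω s(u, v) = true := by
        rcases Bool.eq_false_or_eq_true (ω s(u, v)) with h7 | h7
        · exact h7
        · exact absurd h7 h5
      exact h4 ⟨huv.2.2, h6⟩
  refine h2.trans ?_
  rw [Finset.sum_congr rfl h1, Finset.sum_const, card_powersetCard, card_univ, Fintype.card_fin,
    nsmul_eq_mul]
  have h3 : ((n.choose k : ℕ) : ℝ) ≤ (n : ℝ) ^ k / (k.factorial : ℝ) := Nat.choose_le_pow_div k n
  have h4 : (n : ℝ) ^ k ≤ 2 ^ (k * l) := by
    have h5 : (n : ℝ) ≤ 2 ^ l := by exact_mod_cast hn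
    calc (n : ℝ) ^ k ≤ (2 ^ l) ^ k := pow_le_pow_left₀ (Nat.cast_nonneg _) h5 k
      _ = 2 ^ (k * l) := by rw [← pow_mul, mul_comm]
  have hf : (0 : ℝ) < (k.factorial : ℝ) := by exact_mod_cast Nat.factorial_pos k
  have h6 : ((n.choose k : ℕ) : ℝ) ≤ 2 ^ (k * l) / (k.factorial : ℝ) :=
    h3.trans (div_le_div_of_nonneg_right h4 hf.le)
  calc ((n.choose k : ℕ) : ℝ) * (2 ^ N / 2 ^ (k * l)) ≤
        2 ^ (k * l) / (k.factorial : ℝ) * (2 ^ N / 2 ^ (k * l)) :=
        mul_le_mul_of_nonneg_right h6 (by positivity)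
    _ = 1 / (k.factorial : ℝ) * 2 ^ N := by
        field_simp

end Pool.Agent.H33.EAG
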