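import Pool.Agent.H39.EAG.Targets

set_option autoImplicit false

open Finset Filter Topology Pool.Agent.H39.EAG

namespace Pool.Agent.H33.EAG

theorem nm_clog : Tendsto (fun n : ℕ => Nat.clog 2 n) atTop atTop := by
  refine tendsto_atTop.2 fun m => ?_
  filter_upwards [eventually_ge_atTop (2 ^ m)] with n hn
  by_contra h
  push Not at h
  have h1 : n ≤ 2 ^ Nat.clog 2 n := Nat.le_pow_clog (by norm_num) n
  have h2 : 2 ^ Nat.clog 2 n < 2 ^ m := Nat.pow_lt_pow_right (by norm_num) h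
  omega

theorem nm_bound (n l : ℕ) (hl : 1 ≤ l) (h1 : n ≤ 2 ^ l) (h2 : 2 ^ (l - 1) < n)
    (h3 : 48 * (l : ℝ) ^ 2 ≤ (9 / 8 : ℝ) ^ l) :
    (n : ℝ) ^ 2 * (1 - (3 / 4 : ℝ) ^ (2 * l)) ^ (n / (2 * l) / 3) ≤ Real.exp (1 - 2 * l) := by
  have hl0 : (0 : ℝ) < l := by exact_mod_cast hl
  set q : ℝ := (3 / 4 : ℝ) ^ (2 * l) with hq
  set L : ℕ := n / (2 * l) / 3 with hL
  have hq0 : 0 < q := by positivity
  have hq1 : q ≤ 1 := pow_le_one₀ (by norm_num) (by norm_num)
  have hqe : q = (9 / 16 : ℝ) ^ l := by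
    rw [hq, pow_mul]
    norm_num
  have hLn : (n : ℝ) < 6 * l * (L + 1) := by
    have h4 : n < (2 * l * 3) * (n / (2 * l * 3) + 1) :=
      Nat.lt_mul_div_succ n (by omega)
    have h5 : n / (2 * l * 3) = L := by rw [hL, Nat.div_div_eq_div_mul]
    rw [h5] at h4
    have h6 : (n : ℝ) < ((2 * l * 3 * (L + 1) : ℕ) : ℝ) := by exact_mod_cast h4
    push_cast at h6
    linarith
  have hn2 : (2 : ℝ) ^ l ≤ 2 * n := by
    have h4 : 2 ^ l ≤ 2 * n := by
      have : 2 ^ l = 2 * 2 ^ (l - 1) := by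
        rw [← pow_succ', Nat.sub_add_cancel hl]
      omega
    exact_mod_cast h4
  have hprod : (9 / 8 : ℝ) ^ l ≤ 2 * (n : ℝ) * q := by
    have : (9 / 8 : ℝ) ^ l = 2 ^ l * q := by
      rw [hqe, ← mul_pow]
      norm_num
    rw [this]
    exact mul_le_mul_of_nonneg_right hn2 hq0.le
  have hqL : 4 * (l : ℝ) - 1 ≤ q * L := by
    have h4 : 48 * (l : ℝ) ^ 2 ≤ 2 * (6 * l * (L + 1)) * q := by
      have : 2 * (n : ℝ) * q ≤ 2 * (6 * l * (L + 1)) * q :=
        mul_le_mul_of_nonneg_right (by linarith) hq0.le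
      linarith
    have h5 : 4 * (l : ℝ) ≤ q * (L + 1) := by
      have h6 : (12 * (l : ℝ)) * (4 * l) ≤ (12 * l) * (q * (L + 1)) := by nlinarith [h4]
      exact le_of_mul_le_mul_left h6 (by positivity)
    nlinarith
  have hpow : (1 - q) ^ L ≤ Real.exp (1 - 4 * l) := by
    calc (1 - q) ^ L ≤ (Real.exp (-q)) ^ L :=
          pow_le_pow_left₀ (by linarith) (by linarith [Real.add_one_le_exp (-q)]) L
      _ = Real.exp (-(q * L)) := by rw [← Real.exp_nat_mul]; ring_nf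
      _ ≤ Real.exp (1 - 4 * l) := Real.exp_le_exp.2 (by linarith)
  have hnn : (n : ℝ) ^ 2 ≤ Real.exp (2 * l) := by
    have h4 : (n : ℝ) ≤ 2 ^ l := by exact_mod_cast h1
    have h5 : (2 : ℝ) ^ l ≤ Real.exp l := by
      have h6 : (2 : ℝ) ≤ Real.exp 1 := by linarith [Real.add_one_le_exp (1 : ℝ)]
      calc (2 : ℝ) ^ l ≤ (Real.exp 1) ^ l := pow_le_pow_left₀ (by norm_num) h6 l
        _ = Real.exp l := by rw [← Real.exp_nat_mul, mul_one]
    calc (n : ℝ) ^ 2 ≤ (Real.exp l) ^ 2 := pow_le_pow_left₀ (Nat.cast_nonneg _) (h4.trans h5) 2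
      _ = Real.exp (2 * l) := by rw [← Real.exp_nat_mul]; norm_num
  calc (n : ℝ) ^ 2 * (1 - q) ^ L ≤ Real.exp (2 * l) * Real.exp (1 - 4 * l) :=
        mul_le_mul hnn hpow (pow_nonneg (by linarith) _) (Real.exp_pos _).le
    _ = Real.exp (1 - 2 * l) := by rw [← Real.exp_add]; ring_nf

theorem pf_NM1 : T_NM1 := by
  unfold T_NM1
  have hlim : Tendsto (fun n : ℕ => Real.exp (1 - 2 * (Nat.clog 2 n : ℝ))) atTop (𝓝 0) := by
    have h1 : Tendsto (fun l : ℕ => Real.exp (1 - 2 * (l : ℝ))) atTop (𝓝 0) := by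
      refine Real.tendsto_exp_atBot.comp ?_
      have h2 : Tendsto (fun l : ℕ => 2 * (l : ℝ) - 1) atTop atTop :=
        tendsto_atTop_add_const_right _ _ (tendsto_natCast_atTop_atTop.const_mul_atTop (by norm_num))
      have h3 := tendsto_neg_atTop_atBot.comp h2
      refine h3.congr fun l => ?_
      simp only [Function.comp]
      ring
    exact h1.comp nm_clog
  have hev : ∀ᶠ l : ℕ in atTop, 48 * (l : ℝ) ^ 2 ≤ (9 / 8 : ℝ) ^ l := by
    have h1 := tendsto_pow_const_div_const_pow_of_one_lt 2 (r := (9 / 8 : ℝ)) (by norm_num)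
    have h2 := h1.eventually (gt_mem_nhds (show (0 : ℝ) < 1 / 48 by norm_num))
    filter_upwards [h2] with l hl
    have h3 : (0 : ℝ) < (9 / 8 : ℝ) ^ l := by positivity
    rw [div_lt_iff₀ h3] at hl
    linarith
  refine squeeze_zero' (Eventually.of_forall fun n => ?_) ?_ hlim
  · refine mul_nonneg (sq_nonneg _) (pow_nonneg ?_ _)
    have : (3 / 4 : ℝ) ^ (2 * Nat.clog 2 n) ≤ 1 := pow_le_one₀ (by norm_num) (by norm_num)
    linarith
  · filter_upwards [nm_clog.eventually hev, eventually_ge_atTop 2] with n hn h2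
    refine nm_bound n (Nat.clog 2 n) ?_ (Nat.le_pow_clog (by norm_num) n) ?_ hn
    · exact Nat.clog_pos (by norm_num) h2
    · exact Nat.pow_pred_clog_lt_self (by norm_num) (by omega)

end Pool.Agent.H33.EAG
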